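import Pool.Agent.V5helper46.RC.Loc1

/-!
# Project RC, job LOCU
-/

set_option autoImplicit false

open Finset

namespace Pool.Agent.V5helper46.RC

open Pool.Agent.V5helper50.RS (M)
open Pool.Agent.V5helper50.RC (S G W)
open Pool.Agent.V5helper16.CT (N N_mul)

/-- the bound for the number of the roots modulo `p ^ (v + 1)` -/
def BB (k p v u : ℕ) {d : ℕ} (y : Fin d → ℕ) : ℕ :=
  ∑ s ∈ range (v + 1), if (∑ l, y l ^ k) % p ^ s = u % p ^ s then k * p ^ (s - s / k) else 0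

/-- the number of the roots modulo `q₁` -/
def AA (k q u : ℕ) {d : ℕ} (y : Fin d → ℕ) : ℕ :=
  ((range q).filter (fun r => (∑ l, y l ^ k + r ^ k) % q = u % q)).card

lemma sum_mod {a q k d : ℕ} (h : a ∣ q) (y : Fin d → ℕ) :
    (∑ l, (y l % q) ^ k) % a = (∑ l, y l ^ k) % a := by
  have h1 : ∀ l, (y l % q) ^ k ≡ y l ^ k [MOD a] := fun l =>
    ((Nat.mod_modEq (y l) q).of_dvd h).pow k
  have : ∀ s : Finset (Fin d), ∑ l ∈ s, (y l % q) ^ k ≡ ∑ l ∈ s, y l ^ k [MOD a] := by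
    intro s
    classical
    induction s using Finset.induction_on with
    | empty => rfl
    | insert i s hi ih =>
      rw [sum_insert hi, sum_insert hi]
      exact (h1 i).add ih
  exact this univ

lemma BB_mod (k p v u : ℕ) {d : ℕ} (y : Fin d → ℕ) : BB k p v u (fun l => y l % p ^ v) = BB k p v u y := by
  unfold BB
  refine sum_congr rfl fun s hs => ?_
  rw [mem_range] at hs
  rw [sum_mod (pow_dvd_pow p (by omega : s ≤ v))]

lemma AA_mod (k q u : ℕ) {d : ℕ} (y : Fin d → ℕ) : AA k q u (fun l => y l % q) = AA k q u y := by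
  unfold AA
  congr 1
  ext r
  rw [mem_filter, mem_filter]
  refine and_congr_right fun _ => ?_
  rw [Nat.add_mod, sum_mod dvd_rfl, ← Nat.add_mod]

lemma sum_AA (k q d u : ℕ) : ∑ y ∈ Fintype.piFinset (fun _ : Fin d => range q), AA k q u y = M k q (d + 1) u :=
  (M_succ k q d u).symm

lemma sum_BB {k p v d u : ℕ} (hp : p.Prime) (hk : 1 ≤ k) (hpk : ¬ p ∣ k) (hd : k + 1 ≤ d) :
    ((∑ y ∈ Fintype.piFinset (fun _ : Fin d => range (p ^ v)), BB k p v u y : ℕ) : ℝ) ≤
      2 ^ (d + 2) * (k : ℝ) ^ 3 * ((p : ℝ) ^ v) ^ d := by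
  classical
  have : Fact p.Prime := ⟨hp⟩
  have hp0 : (0 : ℝ) < p := by exact_mod_cast hp.pos
  have hp2 : (2 : ℝ) ≤ p := by exact_mod_cast hp.two_le
  have hk1 : (1 : ℝ) ≤ k := by exact_mod_cast hk
  unfold BB
  rw [sum_comm]
  push_cast
  have hterm : ∀ s ∈ range (v + 1),
      (∑ y ∈ Fintype.piFinset (fun _ : Fin d => range (p ^ v)),
        (if (∑ l, y l ^ k) % p ^ s = u % p ^ s then (k : ℝ) * (p : ℝ) ^ (s - s / k) else 0)) ≤
      2 ^ (d + 1) * (k : ℝ) ^ 2 * ((p : ℝ) ^ v) ^ d * (1 / 2 : ℝ) ^ (s / k) := by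
    intro s hs
    rw [mem_range] at hs
    rw [← sum_filter, sum_const, nsmul_eq_mul]
    -- the number of the tuples
    have h1 := (Pool.Agent.V5helper76.RS.t_RES (p ^ s) d
      (fun y => if (∑ l, y l ^ k) % p ^ s = u % p ^ s then 1 else 0) (pow_pos hp.pos s)).1 (p ^ v)
    have h2 : ∀ y ∈ Fintype.piFinset (fun _ : Fin d => range (p ^ v)),
        (if (∑ l, (y l % p ^ s) ^ k) % p ^ s = u % p ^ s then 1 else 0) =
        (if (∑ l, y l ^ k) % p ^ s = u % p ^ s then 1 else 0) := by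
      intro y _
      rw [sum_mod dvd_rfl]
    simp only [] at h1
    rw [sum_congr rfl h2, sum_boole, sum_boole, Nat.cast_id, Nat.cast_id] at h1
    have h3 : ((Fintype.piFinset (fun _ : Fin d => range (p ^ s))).filter
        (fun y => (∑ l, y l ^ k) % p ^ s = u % p ^ s)).card ≤ 2 * k * (p ^ s) ^ (d - 1) := by
      have h4 := M_eq_N k (p ^ s) d u (Nat.one_le_pow _ _ hp.pos)
      unfold Pool.Agent.V5helper50.RS.M at h4
      rw [h4]
      exact N_two_k hk hpk hd s _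
    have h4 : p ^ v / p ^ s + 1 ≤ 2 * p ^ (v - s) := by
      rw [Nat.pow_div (by omega) hp.pos]
      have := Nat.one_le_pow (v - s) p hp.pos
      omega
    have h5 : ((Fintype.piFinset (fun _ : Fin d => range (p ^ v))).filter
        (fun y => (∑ l, y l ^ k) % p ^ s = u % p ^ s)).card ≤
        (2 * p ^ (v - s)) ^ d * (2 * k * (p ^ s) ^ (d - 1)) :=
      h1.trans (Nat.mul_le_mul (Nat.pow_le_pow_left h4 d) h3)
    have h6 : (((Fintype.piFinset (fun _ : Fin d => range (p ^ v))).filter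
        (fun y => (∑ l, y l ^ k) % p ^ s = u % p ^ s)).card : ℝ) ≤
        (2 * (p : ℝ) ^ (v - s)) ^ d * (2 * k * ((p : ℝ) ^ s) ^ (d - 1)) := by exact_mod_cast h5
    have h7 : (p : ℝ) ^ (s - s / k) ≤ (p : ℝ) ^ s * (1 / 2) ^ (s / k) := by
      have e1 : (p : ℝ) ^ s = (p : ℝ) ^ (s - s / k) * (p : ℝ) ^ (s / k) := by
        rw [← pow_add, Nat.sub_add_cancel (Nat.div_le_self _ _)]
      rw [e1, mul_assoc, ← mul_pow]
      have e2 : (1 : ℝ) ≤ ((p : ℝ) * (1 / 2)) ^ (s / k) := one_le_pow₀ (by linarith)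
      have e3 : (0 : ℝ) ≤ (p : ℝ) ^ (s - s / k) := by positivity
      nlinarith
    have h8 : (p : ℝ) ^ v = (p : ℝ) ^ (v - s) * (p : ℝ) ^ s := by
      rw [← pow_add, Nat.sub_add_cancel (by omega)]
    have h9 : ((p : ℝ) ^ s) ^ d = ((p : ℝ) ^ s) ^ (d - 1) * (p : ℝ) ^ s := by
      rw [← pow_succ]; congr 1; omega
    calc _ ≤ ((2 * (p : ℝ) ^ (v - s)) ^ d * (2 * k * ((p : ℝ) ^ s) ^ (d - 1))) *
          (k * ((p : ℝ) ^ s * (1 / 2) ^ (s / k))) := by
            apply mul_le_mul h6 _ (by positivity) (by positivity)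
            exact mul_le_mul_of_nonneg_left h7 (by positivity)
      _ = 2 ^ (d + 1) * (k : ℝ) ^ 2 * ((p : ℝ) ^ v) ^ d * (1 / 2 : ℝ) ^ (s / k) := by
            rw [h8, mul_pow _ ((p : ℝ) ^ s), h9, mul_pow 2, pow_succ 2 d]
            ring
  refine (sum_le_sum hterm).trans ?_
  rw [← mul_sum]
  have h1 := series_le k (v + 1) hk
  have h2 : 2 ^ (d + 1) * (k : ℝ) ^ 2 * ((p : ℝ) ^ v) ^ d * ∑ s ∈ range (v + 1), (1 / 2 : ℝ) ^ (s / k) ≤
      2 ^ (d + 1) * (k : ℝ) ^ 2 * ((p : ℝ) ^ v) ^ d * (2 * k) :=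
    mul_le_mul_of_nonneg_left h1 (by positivity)
  refine h2.trans (le_of_eq ?_)
  rw [pow_succ 2 (d + 1)]
  ring

/-- the bound for the second summand of `G`, `p ∤ k` -/
lemma sup_bound {k p v q₁ d u : ℕ} (hp : p.Prime) (hk : 1 ≤ k) (hpk : ¬ p ∣ k) (hq₁ : 1 ≤ q₁)
    (hcop : ∀ e, (p ^ e).Coprime q₁) (y : Fin d → ℕ) :
    ((range (p ^ (v + 1) * q₁)).filter (fun z => (∑ l, y l ^ k + z) % (p ^ v * q₁) = u % (p ^ v * q₁))).sup
      (fun z => S k (p ^ (v + 1) * q₁) z) ≤ BB k p v u y * AA k q₁ u y := by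
  classical
  have : Fact p.Prime := ⟨hp⟩
  refine Finset.sup_le fun z hz => ?_
  rw [mem_filter] at hz
  have hz2 : ∑ l, y l ^ k + z ≡ u [MOD (p ^ v * q₁)] := hz.2
  have hpos : 1 ≤ p ^ (v + 1) * q₁ := Nat.mul_pos (pow_pos hp.pos _) hq₁
  rw [S_eq k _ z hpos, N_mul (hcop (v + 1))]
  have hc : (ZMod.chineseRemainder (hcop (v + 1))) ((z : ℕ) : ZMod (p ^ (v + 1) * q₁)) =
      ((z : ZMod (p ^ (v + 1))), (z : ZMod q₁)) := by
    rw [map_natCast]
    rfl
  rw [hc]
  refine Nat.mul_le_mul ?_ ?_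
  · -- the prime `p`
    set s := Nat.findGreatest (fun s => p ^ s ∣ z) v with hs
    have hsv : s ≤ v := Nat.findGreatest_le v
    have hsz : p ^ s ∣ z := by
      have := Nat.findGreatest_spec (P := fun s => p ^ s ∣ z) (Nat.zero_le v) (by simp)
      exact this
    have h1 := root_bound (p := p) hk hpk (v + 1) (by omega) (z : ℤ) s (by omega) (by
      rcases Nat.eq_or_lt_of_le hsv with h | h
      · right; omega
      · left
        have h2 := Nat.findGreatest_is_greatest (P := fun s => p ^ s ∣ z) (n := v) (k := s + 1)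
          (by omega) (by omega)
        intro h3
        apply h2
        exact_mod_cast h3)
    rw [Int.cast_natCast] at h1
    refine h1.trans ?_
    unfold BB
    have h2 : (∑ l, y l ^ k) % p ^ s = u % p ^ s := by
      have h3 : ∑ l, y l ^ k + z ≡ u [MOD p ^ s] :=
        hz2.of_dvd ((pow_dvd_pow p hsv).mul_right _)
      have h4 : z ≡ 0 [MOD p ^ s] := (Nat.modEq_zero_iff_dvd).2 hsz
      have h5 : ∑ l, y l ^ k + 0 ≡ ∑ l, y l ^ k + z [MOD p ^ s] := Nat.ModEq.add_left _ h4.symm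
      exact (h5.trans h3)
    have h3 : k * p ^ (s - s / k) =
        (if (∑ l, y l ^ k) % p ^ s = u % p ^ s then k * p ^ (s - s / k) else 0) := (if_pos h2).symm
    rw [h3]
    exact single_le_sum (f := fun s => if (∑ l, y l ^ k) % p ^ s = u % p ^ s then k * p ^ (s - s / k) else 0)
      (fun _ _ => Nat.zero_le _) (mem_range.2 (by omega))
  · rw [← S_eq k q₁ z hq₁]
    unfold Pool.Agent.V5helper50.RC.S AA
    refine card_le_card fun r hr => ?_
    rw [mem_filter] at hr ⊢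
    refine ⟨hr.1, ?_⟩
    have h3 : ∑ l, y l ^ k + z ≡ u [MOD q₁] := hz2.of_dvd (dvd_mul_left _ _)
    have h4 : r ^ k ≡ z [MOD q₁] := hr.2
    exact (Nat.ModEq.add_left _ h4).trans h3

theorem t_LOCU : Pool.Agent.V5helper50.RC.S_LOCU := by
  classical
  intro k d hk hd
  obtain ⟨C, hC1, hC⟩ := upper hk hd
  obtain ⟨d', rfl⟩ : ∃ d', d = d' + 1 := ⟨d - 1, by omega⟩
  have hk1 : (1 : ℝ) ≤ k := by exact_mod_cast (by omega : 1 ≤ k)
  have hM : ∀ q u : ℕ, 1 ≤ q → (M k q (d' + 1) u : ℝ) ≤ C * (q : ℝ) ^ d' := by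
    intro q u hq
    rw [M_eq_N k q (d' + 1) u hq]
    exact hC q hq _
  refine ⟨(2 + k + 2 ^ (d' + 2) * (k : ℝ) ^ 3) * C, by positivity, ?_⟩
  intro q q' u hq hcase
  rw [Nat.add_sub_cancel]
  have hX : 0 ≤ C * (q : ℝ) ^ d' := by positivity
  have hfin : ∀ c : ℝ, c ≤ 2 + k + 2 ^ (d' + 2) * (k : ℝ) ^ 3 → (W k q q' (d' + 1) u : ℝ) ≤ c * (C * (q : ℝ) ^ d') →
      (W k q q' (d' + 1) u : ℝ) ≤ (2 + k + 2 ^ (d' + 2) * (k : ℝ) ^ 3) * C * (q : ℝ) ^ d' := by
    intro c hc h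
    refine h.trans ?_
    rw [mul_assoc]
    exact mul_le_mul_of_nonneg_right hc hX
  have hbig : (0 : ℝ) ≤ 2 ^ (d' + 2) * (k : ℝ) ^ 3 := by positivity
  rcases hcase with rfl | ⟨p, hp, rfl⟩
  · -- equal moduli
    have h1 := W_self_le (k := k) (q := q') (d := d' + 1) (u := u) (by omega)
    have h2 : (W k q' q' (d' + 1) u : ℝ) ≤ 2 * (M k q' (d' + 1) u : ℝ) := by exact_mod_cast h1
    apply hfin 2 (by linarith)
    have h3 := hM q' u hq
    linarith
  · by_cases hpk : p ∣ k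
    · -- `p ∣ k`
      have hple : p ≤ k := Nat.le_of_dvd (by omega) hpk
      have h1 : W k q (p * q) (d' + 1) u ≤ (1 + p) * M k q (d' + 1) u := by
        rw [M_succ, mul_sum]
        unfold Pool.Agent.V5helper50.RC.W
        rw [Nat.add_sub_cancel]
        refine sum_le_sum fun y _ => ?_
        unfold Pool.Agent.V5helper50.RC.G
        rw [add_mul, one_mul]
        refine Nat.add_le_add_left (Finset.sup_le fun z hz => ?_) _
        rw [mem_filter] at hz
        have h2 : ∑ l, y l ^ k + z ≡ u [MOD q] := hz.2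
        refine le_trans ?_ (fibre hq (fun r => (∑ l, y l ^ k + r ^ k) % q = u % q))
        unfold Pool.Agent.V5helper50.RC.S
        refine card_le_card fun r hr => ?_
        rw [mem_filter] at hr ⊢
        refine ⟨hr.1, ?_⟩
        have h3 : r ^ k ≡ z [MOD (p * q)] := hr.2
        have h4 : r ^ k ≡ z [MOD q] := h3.of_dvd (dvd_mul_left _ _)
        have h5 : (r % q) ^ k ≡ r ^ k [MOD q] := (Nat.mod_modEq r q).pow k
        exact (Nat.ModEq.add_left _ (h5.trans h4)).trans h2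
      have h2 : (W k q (p * q) (d' + 1) u : ℝ) ≤ (1 + p) * (M k q (d' + 1) u : ℝ) := by exact_mod_cast h1
      apply hfin (1 + k) (by linarith)
      have h3 := hM q u hq
      have h4 : (p : ℝ) ≤ k := by exact_mod_cast hple
      have h5 : (0 : ℝ) ≤ M k q (d' + 1) u := by positivity
      have h6 : (0 : ℝ) ≤ p := by positivity
      calc _ ≤ (1 + (p : ℝ)) * (M k q (d' + 1) u : ℝ) := h2
        _ ≤ (1 + (k : ℝ)) * (C * (q : ℝ) ^ d') := mul_le_mul (by linarith) h3 h5 (by linarith)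
    · -- `p ∤ k`
      obtain ⟨v, q₁, hpq, hqv⟩ := Nat.exists_eq_pow_mul_and_not_dvd (by omega : q ≠ 0) p hp.ne_one
      have hcop : ∀ e, (p ^ e).Coprime q₁ := fun e =>
        Nat.Coprime.pow_left _ ((Nat.Prime.coprime_iff_not_dvd hp).2 hpq)
      have hq₁ : 1 ≤ q₁ := by
        rcases Nat.eq_zero_or_pos q₁ with h | h
        · rw [h] at hpq; exact absurd (dvd_zero p) hpq
        · exact h
      have hq' : p * q = p ^ (v + 1) * q₁ := by rw [hqv, pow_succ]; ring
      have h1 : W k q (p * q) (d' + 1) u ≤ M k q (d' + 1) u +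
          (∑ y ∈ Fintype.piFinset (fun _ : Fin d' => range (p ^ v)), BB k p v u y) *
          (∑ y ∈ Fintype.piFinset (fun _ : Fin d' => range q₁), AA k q₁ u y) := by
        have h2 := prodsum (d := d') (Nat.one_le_pow v p hp.pos) hq₁ (hcop v)
          (fun y => BB k p v u y) (fun y => AA k q₁ u y)
        refine le_trans ?_ (Nat.add_le_add_left h2 _)
        rw [M_succ, hq', hqv, ← sum_add_distrib]
        unfold Pool.Agent.V5helper50.RC.W
        rw [Nat.add_sub_cancel]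
        refine sum_le_sum fun y _ => ?_
        unfold Pool.Agent.V5helper50.RC.G
        refine Nat.add_le_add_left ?_ _
        rw [BB_mod, AA_mod]
        exact sup_bound hp (by omega) hpk hq₁ hcop y
      have h2 := sum_BB (k := k) (p := p) (v := v) (d := d') (u := u) hp (by omega) hpk (by omega)
      have h3 : ((∑ y ∈ Fintype.piFinset (fun _ : Fin d' => range q₁), AA k q₁ u y : ℕ) : ℝ) ≤
          C * (q₁ : ℝ) ^ d' := by
        rw [sum_AA]
        exact hM q₁ u hq₁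
      have h4 : (W k q (p * q) (d' + 1) u : ℝ) ≤ (M k q (d' + 1) u : ℝ) +
          ((∑ y ∈ Fintype.piFinset (fun _ : Fin d' => range (p ^ v)), BB k p v u y : ℕ) : ℝ) *
          ((∑ y ∈ Fintype.piFinset (fun _ : Fin d' => range q₁), AA k q₁ u y : ℕ) : ℝ) := by exact_mod_cast h1
      apply hfin (1 + 2 ^ (d' + 2) * (k : ℝ) ^ 3) (by linarith)
      have h5 := hM q u hq
      have h6 : (q : ℝ) ^ d' = ((p : ℝ) ^ v) ^ d' * (q₁ : ℝ) ^ d' := by
        rw [hqv]; push_cast; rw [mul_pow]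
      have h7 := mul_le_mul h2 h3 (by positivity) (by positivity)
      refine h4.trans ((add_le_add h5 h7).trans (le_of_eq ?_))
      rw [h6]
      ring

end Pool.Agent.V5helper46.RC
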