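import Pool.Agent.V5helper46.RC.Up

/-!
# Project RC, job LOCB
-/

set_option autoImplicit false

open Finset

namespace Pool.Agent.V5helper46.RC

open Pool.Agent.V5helper50.RS (M)
open Pool.Agent.V5helper50.RC (S G W)
open Pool.Agent.V5helper16.CT (N N_mul N_one N_eq N_eq_add P P_eq Z Z_rec_zero no_prim_of_not LocalBound)

/-- no primitive solution modulo `p ^ m` for `m ≥ γ` -/
lemma P_zero {p : ℕ} [Fact p.Prime] {k d γ : ℕ}
    (hγ : ∀ y : Fin d → ℕ, p ^ γ ∣ ∑ i, y i ^ k → ∀ i, p ∣ y i) {m : ℕ} (hm : γ ≤ m) :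
    P p m k d 0 = 0 := by
  classical
  have hp : p.Prime := Fact.out
  by_contra hne
  rw [P_eq] at hne
  obtain ⟨x, hx⟩ := card_pos.mp (Nat.pos_of_ne_zero hne)
  rw [mem_filter] at hx
  obtain ⟨_, hx1, i, hi⟩ := hx
  have h1 : p ^ m ∣ ∑ i, (x i).val ^ k := by
    rw [← ZMod.natCast_eq_zero_iff]
    push_cast
    simp_rw [ZMod.natCast_zmod_val]
    exact hx1
  obtain ⟨t, ht⟩ := hγ (fun i => (x i).val) ((pow_dvd_pow p hm).trans h1) i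
  apply hi
  refine ⟨(t : ZMod (p ^ m)), ?_⟩
  have ht' : (x i).val = p * t := ht
  rw [← ZMod.natCast_zmod_val (x i), ht']
  push_cast
  rfl

/-- the density of the zeros modulo `p ^ v` tends to zero -/
lemma density_small {p : ℕ} [Fact p.Prime] {k d γ : ℕ} (hk : 3 ≤ k) (hd : k + 2 ≤ d)
    (hγ : ∀ y : Fin d → ℕ, p ^ γ ∣ ∑ i, y i ^ k → ∀ i, p ∣ y i) {C : ℝ} (hC : 0 ≤ C)
    (hC' : ∀ q : ℕ, 1 ≤ q → ∀ n : ZMod q, (N q k d n : ℝ) ≤ C * (q : ℝ) ^ (d - 1)) (j : ℕ) :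
    ∀ v : ℕ, γ + k * j ≤ v → (N (p ^ v) k d 0 : ℝ) ≤ C * (1 / 4) ^ j * ((p : ℝ) ^ v) ^ (d - 1) := by
  have hp : p.Prime := Fact.out
  have hp2 : (2 : ℝ) ≤ p := by exact_mod_cast hp.two_le
  have hp1 : (1 : ℝ) ≤ p := by linarith
  induction j with
  | zero =>
    intro v _
    have := hC' (p ^ v) (Nat.one_le_pow _ _ hp.pos) 0
    rw [pow_zero, mul_one]
    exact_mod_cast this
  | succ j ih =>
    intro v hv
    have hkv : k ≤ v := by nlinarith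
    have hγv : γ ≤ v := by nlinarith
    have h1 := Z_rec_zero (p := p) (γ := v) (k := k) (by omega) hkv d
    have h2 : γ + k * j ≤ v - k := by
      have : γ + k * (j + 1) = γ + k * j + k := by ring
      omega
    have h3 : N (p ^ v) k d 0 = Z p v k d 0 := by
      rw [N_eq_add, P_zero hγ hγv, add_zero]
    rw [← h3] at h1
    have h4 : (N (p ^ v) k d 0 : ℝ) * (p : ℝ) ^ d =
        ((p : ℝ) ^ k) ^ d * (N (p ^ (v - k)) k d 0 : ℝ) := by exact_mod_cast h1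
    have h5 : ((p : ℝ) ^ k) ^ d * (N (p ^ (v - k)) k d 0 : ℝ) ≤
        ((p : ℝ) ^ k) ^ d * (C * (1 / 4) ^ j * ((p : ℝ) ^ (v - k)) ^ (d - 1)) :=
      mul_le_mul_of_nonneg_left (ih (v - k) h2) (by positivity)
    have h6 : ((p : ℝ) ^ k) ^ d * ((p : ℝ) ^ (v - k)) ^ (d - 1) =
        (p : ℝ) ^ k * ((p : ℝ) ^ v) ^ (d - 1) := by
      have e1 : (p : ℝ) ^ v = (p : ℝ) ^ k * (p : ℝ) ^ (v - k) := by
        rw [← pow_add]; congr 1; omega
      have e2 : ((p : ℝ) ^ k) ^ d = (p : ℝ) ^ k * ((p : ℝ) ^ k) ^ (d - 1) := by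
        rw [← pow_succ']; congr 1; omega
      rw [e1, mul_pow, e2]
      ring
    have h7 : (p : ℝ) ^ k * 4 ≤ (p : ℝ) ^ d := by
      have e1 : (p : ℝ) ^ d = (p : ℝ) ^ (d - (k + 2)) * ((p : ℝ) ^ k * (p : ℝ) ^ 2) := by
        rw [← pow_add, ← pow_add]; congr 1; omega
      have e2 : (1 : ℝ) ≤ (p : ℝ) ^ (d - (k + 2)) := one_le_pow₀ hp1
      have e3 : (4 : ℝ) ≤ (p : ℝ) ^ 2 := by nlinarith
      have e4 : 0 < (p : ℝ) ^ k := by positivity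
      rw [e1]
      have e5 : (p : ℝ) ^ k * 4 ≤ (p : ℝ) ^ k * (p : ℝ) ^ 2 := mul_le_mul_of_nonneg_left e3 e4.le
      have e6 : 0 < (p : ℝ) ^ k * (p : ℝ) ^ 2 := by positivity
      nlinarith
    have hpd : (0 : ℝ) < (p : ℝ) ^ d := by positivity
    have h8 : (N (p ^ v) k d 0 : ℝ) * (p : ℝ) ^ d ≤
        (C * (1 / 4) ^ (j + 1) * ((p : ℝ) ^ v) ^ (d - 1)) * (p : ℝ) ^ d := by
      rw [h4]
      refine h5.trans ?_
      have e1 : ((p : ℝ) ^ k) ^ d * (C * (1 / 4) ^ j * ((p : ℝ) ^ (v - k)) ^ (d - 1)) =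
          (C * (1 / 4) ^ j) * (((p : ℝ) ^ k) ^ d * ((p : ℝ) ^ (v - k)) ^ (d - 1)) := by ring
      rw [e1, h6]
      have e2 : 0 ≤ (C * (1 / 4) ^ j) * ((p : ℝ) ^ v) ^ (d - 1) := by positivity
      have e3 := mul_le_mul_of_nonneg_left h7 e2
      rw [pow_succ (1 / 4 : ℝ) j]
      nlinarith
    exact le_of_mul_le_mul_right h8 hpd

theorem t_LOCB : Pool.Agent.V5helper50.RC.S_LOCB := by
  classical
  intro k d hk hd hL ε hε
  obtain ⟨C, hC1, hC⟩ := upper hk hd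
  obtain ⟨p, hp, γ, hγ⟩ := no_prim_of_not hk hd hL
  have : Fact p.Prime := ⟨hp⟩
  obtain ⟨j, hj⟩ := exists_pow_lt_of_lt_one (show 0 < ε / (2 * C * C) by positivity)
    (show (1 / 4 : ℝ) < 1 by norm_num)
  refine ⟨p ^ (γ + k * j), Nat.one_le_pow _ _ hp.pos, ?_⟩
  intro q u hq hdvd hqu
  have hq0 : q ≠ 0 := by omega
  obtain ⟨v, q₁, hpq, hqv⟩ := Nat.exists_eq_pow_mul_and_not_dvd hq0 p hp.ne_one
  have hv : γ + k * j ≤ v := by
    by_contra hcon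
    push Not at hcon
    have h1 : p ^ (v + 1) ∣ p ^ v * q₁ := by
      rw [← hqv]
      exact (pow_dvd_pow p hcon).trans hdvd
    rw [pow_succ] at h1
    exact hpq (Nat.dvd_of_mul_dvd_mul_left (pow_pos hp.pos v) h1)
  have hcop : (p ^ v).Coprime q₁ := Nat.Coprime.pow_left _ ((Nat.Prime.coprime_iff_not_dvd hp).2 hpq)
  have hq₁ : 1 ≤ q₁ := by
    rcases Nat.eq_zero_or_pos q₁ with h | h
    · rw [h] at hpq; exact absurd (dvd_zero p) hpq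
    · exact h
  have hM : M k q d u = N (p ^ v) k d 0 * N q₁ k d 0 := by
    rw [M_eq_N k q d u hq]
    have h0 : (u : ZMod q) = 0 := (ZMod.natCast_eq_zero_iff u q).2 hqu
    rw [h0]
    subst hqv
    rw [N_mul hcop, map_zero]
    rfl
  have hW := W_self_le (k := k) (q := q) (d := d) (u := u) (by omega)
  have hW' : (W k q q d u : ℝ) ≤ 2 * (M k q d u : ℝ) := by exact_mod_cast hW
  refine hW'.trans ?_
  rw [hM]
  push_cast
  have h1 := density_small hk hd hγ (by linarith) hC j v hv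
  have h2 := hC q₁ hq₁ 0
  have h3 : (q : ℝ) ^ (d - 1) = ((p : ℝ) ^ v) ^ (d - 1) * (q₁ : ℝ) ^ (d - 1) := by
    rw [hqv]
    push_cast
    rw [mul_pow]
  have h4 : (N (p ^ v) k d 0 : ℝ) * (N q₁ k d 0 : ℝ) ≤
      (C * (1 / 4) ^ j * ((p : ℝ) ^ v) ^ (d - 1)) * (C * (q₁ : ℝ) ^ (d - 1)) :=
    mul_le_mul h1 h2 (by positivity) (by positivity)
  have h5 : 2 * (C * (1 / 4 : ℝ) ^ j * C) ≤ ε := by
    rw [lt_div_iff₀ (by positivity)] at hj
    nlinarith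
  rw [h3]
  have h6 : (0 : ℝ) ≤ ((p : ℝ) ^ v) ^ (d - 1) * (q₁ : ℝ) ^ (d - 1) := by positivity
  calc 2 * ((N (p ^ v) k d 0 : ℝ) * (N q₁ k d 0 : ℝ))
      ≤ 2 * ((C * (1 / 4) ^ j * ((p : ℝ) ^ v) ^ (d - 1)) * (C * (q₁ : ℝ) ^ (d - 1))) := by linarith
    _ = 2 * (C * (1 / 4 : ℝ) ^ j * C) * (((p : ℝ) ^ v) ^ (d - 1) * (q₁ : ℝ) ^ (d - 1)) := by ring
    _ ≤ ε * (((p : ℝ) ^ v) ^ (d - 1) * (q₁ : ℝ) ^ (d - 1)) := mul_le_mul_of_nonneg_right h5 h6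

end Pool.Agent.V5helper46.RC
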