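import Pool.Agent.V5helper46.RC.Roots
import Pool.Agent.V5helper76.RS.RES

/-!
# Project RC, job LOCU: auxiliary lemmas
-/

set_option autoImplicit false

open Finset

namespace Pool.Agent.V5helper46.RC

open Pool.Agent.V5helper50.RS (M)
open Pool.Agent.V5helper50.RC (S G W)
open Pool.Agent.V5helper16.CT (N N_mul N_one N_eq N_eq_add P P_le Z Z_le Z_rec Z_ne_zero)

lemma N_le' {p : ℕ} [Fact p.Prime] {k d : ℕ} (hk : 1 ≤ k) (hd : k + 1 ≤ d) {B U : ℝ} (hU : 1 ≤ U)
    (hBU : B + U / (p : ℝ) ≤ U)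
    (hB : ∀ (γ : ℕ) (n : ZMod (p ^ γ)), 1 ≤ γ → (P p γ k d n : ℝ) ≤ B * ((p : ℝ) ^ γ) ^ (d - 1))
    (γ : ℕ) (n : ZMod (p ^ γ)) :
    (N (p ^ γ) k d n : ℝ) ≤ U * ((p : ℝ) ^ γ) ^ (d - 1) := by
  have hp : p.Prime := Fact.out
  have hpR : (0 : ℝ) < p := by exact_mod_cast hp.pos
  have hp1 : (1 : ℝ) ≤ p := by exact_mod_cast hp.one_lt.le
  induction γ using Nat.strong_induction_on with
  | _ γ ih =>
    rcases Nat.eq_zero_or_pos γ with h0 | hpos
    · subst h0
      have hN : N (p ^ 0) k d n = 1 := by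
        have : ∀ (q : ℕ) (hq : q = 1) (m : ZMod q), N q k d m = 1 := by
          intro q hq m
          subst hq
          exact N_one k d m
        exact this _ (pow_zero p) n
      rw [hN, pow_zero, one_pow, mul_one, Nat.cast_one]
      exact hU
    · have hU0 : 0 ≤ U := by linarith
      have hQ : (0 : ℝ) < ((p : ℝ) ^ γ) ^ (d - 1) := by positivity
      have key : (Z p γ k d n : ℝ) * (p : ℝ) ^ d ≤ U * ((p : ℝ) ^ k * ((p : ℝ) ^ γ) ^ (d - 1)) := by
        rcases Nat.lt_or_ge γ k with hlt | hge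
        · have h1 := Z_le (p := p) hpos k d n
          have h2 : (Z p γ k d n : ℝ) * (p : ℝ) ^ d ≤ ((p : ℝ) ^ γ) ^ d := by exact_mod_cast h1
          have h3 : ((p : ℝ) ^ γ) ^ d = (p : ℝ) ^ γ * ((p : ℝ) ^ γ) ^ (d - 1) := by
            rw [← pow_succ']; congr 1; omega
          rw [h3] at h2
          have h4 : (p : ℝ) ^ γ ≤ (p : ℝ) ^ k := pow_le_pow_right₀ hp1 hlt.le
          have h5 : (p : ℝ) ^ γ * ((p : ℝ) ^ γ) ^ (d - 1) ≤ (p : ℝ) ^ k * ((p : ℝ) ^ γ) ^ (d - 1) :=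
            mul_le_mul_of_nonneg_right h4 hQ.le
          have h6 : 0 ≤ (p : ℝ) ^ k * ((p : ℝ) ^ γ) ^ (d - 1) := by positivity
          nlinarith
        · by_cases hZ : Z p γ k d n = 0
          · rw [hZ, Nat.cast_zero, zero_mul]
            positivity
          · obtain ⟨m, rfl⟩ := Z_ne_zero hZ
            have h1 := Z_rec (p := p) hk hge d m
            have h2 := ih (γ - k) (by omega) (m : ZMod (p ^ (γ - k)))
            have h3 : (Z p γ k d (((p : ℤ) ^ k * m : ℤ) : ZMod (p ^ γ)) : ℝ) * (p : ℝ) ^ d =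
                ((p : ℝ) ^ k) ^ d * (N (p ^ (γ - k)) k d (m : ZMod (p ^ (γ - k))) : ℝ) := by
              exact_mod_cast h1
            rw [h3]
            have h4 : (p : ℝ) ^ k * ((p : ℝ) ^ γ) ^ (d - 1) = ((p : ℝ) ^ k) ^ d * ((p : ℝ) ^ (γ - k)) ^ (d - 1) := by
              have e1 : (p : ℝ) ^ γ = (p : ℝ) ^ k * (p : ℝ) ^ (γ - k) := by
                rw [← pow_add]; congr 1; omega
              have e2 : ((p : ℝ) ^ k) ^ d = (p : ℝ) ^ k * ((p : ℝ) ^ k) ^ (d - 1) := by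
                rw [← pow_succ']; congr 1; omega
              rw [e1, mul_pow, e2]
              ring
            rw [h4]
            have h5 : (0 : ℝ) ≤ ((p : ℝ) ^ k) ^ d := by positivity
            calc ((p : ℝ) ^ k) ^ d * (N (p ^ (γ - k)) k d (m : ZMod (p ^ (γ - k))) : ℝ)
                ≤ ((p : ℝ) ^ k) ^ d * (U * ((p : ℝ) ^ (γ - k)) ^ (d - 1)) :=
                  mul_le_mul_of_nonneg_left h2 h5
              _ = _ := by ring
      have hZ : (Z p γ k d n : ℝ) ≤ U / (p : ℝ) * ((p : ℝ) ^ γ) ^ (d - 1) := by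
        have e1 : (p : ℝ) ^ d = (p : ℝ) ^ (d - (k + 1)) * ((p : ℝ) ^ k * (p : ℝ)) := by
          rw [← pow_succ, ← pow_add]; congr 1; omega
        have e2 : (1 : ℝ) ≤ (p : ℝ) ^ (d - (k + 1)) := one_le_pow₀ hp1
        have e3 : (p : ℝ) ^ k * (p : ℝ) ≤ (p : ℝ) ^ d := by
          rw [e1]
          have : 0 < (p : ℝ) ^ k * (p : ℝ) := by positivity
          nlinarith
        have e4 : (Z p γ k d n : ℝ) * ((p : ℝ) ^ k * (p : ℝ)) ≤ U * ((p : ℝ) ^ k * ((p : ℝ) ^ γ) ^ (d - 1)) :=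
          (mul_le_mul_of_nonneg_left e3 (by positivity)).trans key
        have e5 : (0 : ℝ) < (p : ℝ) ^ k := by positivity
        have e6 : ((Z p γ k d n : ℝ) * (p : ℝ)) * (p : ℝ) ^ k ≤ (U * ((p : ℝ) ^ γ) ^ (d - 1)) * (p : ℝ) ^ k := by
          nlinarith
        have e7 := le_of_mul_le_mul_right e6 e5
        rw [div_mul_eq_mul_div, le_div_iff₀ (by positivity)]
        exact e7
      rw [N_eq_add]
      push_cast
      have h8 := hB γ n hpos
      calc (Z p γ k d n : ℝ) + (P p γ k d n : ℝ)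
          ≤ U / (p : ℝ) * ((p : ℝ) ^ γ) ^ (d - 1) + B * ((p : ℝ) ^ γ) ^ (d - 1) := add_le_add hZ h8
        _ = (B + U / (p : ℝ)) * ((p : ℝ) ^ γ) ^ (d - 1) := by ring
        _ ≤ U * ((p : ℝ) ^ γ) ^ (d - 1) := mul_le_mul_of_nonneg_right hBU hQ.le

/-- `p ∤ k`, dimension at least `k + 1` -/
lemma N_two_k {p : ℕ} [Fact p.Prime] {k d : ℕ} (hk : 1 ≤ k) (hpk : ¬ p ∣ k) (hd : k + 1 ≤ d)
    (γ : ℕ) (n : ZMod (p ^ γ)) : N (p ^ γ) k d n ≤ 2 * k * (p ^ γ) ^ (d - 1) := by
  have hp : p.Prime := Fact.out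
  have hp2 : (2 : ℝ) ≤ p := by exact_mod_cast hp.two_le
  have hk1 : (1 : ℝ) ≤ k := by exact_mod_cast hk
  have h := N_le' (p := p) (k := k) (d := d) hk hd (B := k) (U := 2 * k) (by linarith) (by
    have : 2 * (k : ℝ) / p ≤ 2 * k / 2 := div_le_div_of_nonneg_left (by linarith) (by norm_num) hp2
    linarith) (by
    intro γ n hγ
    obtain ⟨d', rfl⟩ : ∃ d', d = d' + 1 := ⟨d - 1, by omega⟩
    rw [Nat.add_sub_cancel]
    exact_mod_cast P_le' hk hpk d' γ hγ n) γ n
  exact_mod_cast h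

lemma series (k J : ℕ) (hk : 1 ≤ k) :
    ∑ s ∈ range (k * J), (1 / 2 : ℝ) ^ (s / k) = k * (2 - 2 * (1 / 2) ^ J) := by
  induction J with
  | zero => simp
  | succ J ih =>
    rw [Nat.mul_succ, sum_range_add, ih]
    have h1 : ∀ x ∈ range k, (1 / 2 : ℝ) ^ ((k * J + x) / k) = (1 / 2) ^ J := by
      intro x hx
      rw [mem_range] at hx
      rw [Nat.mul_add_div (by omega), Nat.div_eq_of_lt hx, add_zero]
    rw [sum_congr rfl h1, sum_const, card_range, nsmul_eq_mul, pow_succ]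
    ring

lemma series_le (k n : ℕ) (hk : 1 ≤ k) : ∑ s ∈ range n, (1 / 2 : ℝ) ^ (s / k) ≤ 2 * k := by
  have h1 : ∑ s ∈ range n, (1 / 2 : ℝ) ^ (s / k) ≤ ∑ s ∈ range (k * n), (1 / 2 : ℝ) ^ (s / k) := by
    apply sum_le_sum_of_subset_of_nonneg
    · intro x hx
      rw [mem_range] at hx ⊢
      nlinarith
    · intro i _ _
      positivity
  rw [series k n hk] at h1
  have h2 : (0 : ℝ) ≤ (1 / 2) ^ n := by positivity
  have h3 : (0 : ℝ) ≤ k := by positivity
  nlinarith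

lemma prodsum {a b d : ℕ} (ha : 1 ≤ a) (hb : 1 ≤ b) (hab : a.Coprime b) (f g : (Fin d → ℕ) → ℕ) :
    ∑ y ∈ Fintype.piFinset (fun _ : Fin d => range (a * b)), f (fun l => y l % a) * g (fun l => y l % b) ≤
      (∑ y ∈ Fintype.piFinset (fun _ : Fin d => range a), f y) *
        (∑ y ∈ Fintype.piFinset (fun _ : Fin d => range b), g y) := by
  classical
  rw [sum_mul_sum, ← sum_product']
  set φ : (Fin d → ℕ) → (Fin d → ℕ) × (Fin d → ℕ) := fun y => (fun l => y l % a, fun l => y l % b) with hφ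
  have hinj : Set.InjOn φ (Fintype.piFinset (fun _ : Fin d => range (a * b))) := by
    intro y hy y' hy' h
    rw [mem_coe, Fintype.mem_piFinset] at hy hy'
    rw [hφ, Prod.mk.injEq] at h
    funext l
    have h1 : y l ≡ y' l [MOD a] := congrFun h.1 l
    have h2 : y l ≡ y' l [MOD b] := congrFun h.2 l
    have h3 := (Nat.modEq_and_modEq_iff_modEq_mul hab).1 ⟨h1, h2⟩
    exact Nat.ModEq.eq_of_lt_of_lt h3 (mem_range.1 (hy l)) (mem_range.1 (hy' l))
  calc ∑ y ∈ Fintype.piFinset (fun _ : Fin d => range (a * b)), f (fun l => y l % a) * g (fun l => y l % b)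
      = ∑ z ∈ (Fintype.piFinset (fun _ : Fin d => range (a * b))).image φ, f z.1 * g z.2 :=
        (sum_image (f := fun z : (Fin d → ℕ) × (Fin d → ℕ) => f z.1 * g z.2) hinj).symm
    _ ≤ _ := by
        apply sum_le_sum_of_subset
        intro z hz
        rw [mem_image] at hz
        obtain ⟨y, _, rfl⟩ := hz
        rw [mem_product, Fintype.mem_piFinset, Fintype.mem_piFinset]
        exact ⟨fun l => mem_range.2 (Nat.mod_lt _ ha), fun l => mem_range.2 (Nat.mod_lt _ hb)⟩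

lemma fibre {p q : ℕ} (hq : 1 ≤ q) (P : ℕ → Prop) [DecidablePred P] :
    ((range (p * q)).filter (fun r => P (r % q))).card ≤ p * ((range q).filter P).card := by
  classical
  rw [← card_range p, ← card_product]
  have hinj : Set.InjOn (fun r => (r / q, r % q)) ((range (card (range p) * q)).filter (fun r => P (r % q))) := by
    intro r _ r' _ h
    rw [Prod.mk.injEq] at h
    rw [← Nat.div_add_mod r q, ← Nat.div_add_mod r' q, h.1, h.2]
  refine card_le_card_of_injOn _ ?_ hinj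
  intro r hr
  rw [mem_coe, mem_filter, mem_range, card_range] at hr
  rw [mem_coe, mem_product, mem_filter, mem_range, mem_range]
  exact ⟨(Nat.div_lt_iff_lt_mul hq).2 hr.1, Nat.mod_lt _ hq, hr.2⟩

lemma S_eq (k q z : ℕ) (hq : 1 ≤ q) : S k q z = N q k 1 (z : ZMod q) := by
  classical
  rw [← M_eq_N k q 1 z hq, M_succ]
  unfold Pool.Agent.V5helper50.RC.S
  have h1 : Fintype.piFinset (fun _ : Fin 0 => range q) = {default} := by
    ext y
    simp only [Fintype.mem_piFinset, IsEmpty.forall_iff, mem_singleton, true_iff]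
    exact Subsingleton.elim _ _
  rw [h1, sum_singleton]
  simp

end Pool.Agent.V5helper46.RC
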