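import Pool.Agent.V5helper46.RC.Up

/-!
# Project RC: the number of the `k`-th roots modulo `p ^ m`, `p ∤ k`
-/

set_option autoImplicit false

open Finset

namespace Pool.Agent.V5helper46.RC

open Pool.Agent.V5helper16.CT (N N_mul N_one N_eq N_eq_add P P_eq P_le Z Z_eq Z_le Z_rec Z_ne_zero isUnit_iff
  N_zero_pow)

variable {p : ℕ} [Fact p.Prime]

lemma N_field_le {k : ℕ} (hk : 1 ≤ k) (d : ℕ) (n : ZMod p) : N p k (d + 1) n ≤ k * p ^ d := by
  classical
  rw [N_eq]
  have h1 : ∀ x ∈ univ.filter (fun x : Fin (d + 1) → ZMod p => ∑ i, x i ^ k = n),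
      Fin.init x ∈ (univ : Finset (Fin d → ZMod p)) := fun _ _ => mem_univ _
  refine (card_le_mul_card_image_of_maps_to h1 k ?_).trans ?_
  · intro y _
    have h2 : (((univ.filter (fun x : Fin (d + 1) → ZMod p => ∑ i, x i ^ k = n)).filter
        (fun x => Fin.init x = y)).image (fun x => x (Fin.last d))).card ≤ k := by
      refine (card_le_card (t := (Polynomial.nthRoots k (n - ∑ i, y i ^ k)).toFinset) ?_).trans
        ((Multiset.toFinset_card_le _).trans (Polynomial.card_nthRoots k _))
      intro r hr
      rw [mem_image] at hr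
      obtain ⟨x, hx, rfl⟩ := hr
      rw [mem_filter, mem_filter] at hx
      rw [Multiset.mem_toFinset, Polynomial.mem_nthRoots (by omega)]
      have h3 := hx.1.2
      rw [Fin.sum_univ_castSucc] at h3
      have h4 : ∀ i : Fin d, x (Fin.castSucc i) = y i := fun i => congrFun hx.2 i
      simp only [h4] at h3
      rw [← h3]
      ring
    rwa [card_image_of_injOn] at h2
    intro x hx x' hx' h
    rw [mem_coe, mem_filter] at hx hx'
    have h3 : Fin.init x = Fin.init x' := hx.2.trans hx'.2.symm
    have h4 : x (Fin.last d) = x' (Fin.last d) := h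
    rw [← Fin.snoc_init_self x, ← Fin.snoc_init_self x', h3, h4]
  · rw [card_univ, Fintype.card_fun, Fintype.card_fin, ZMod.card]

lemma P_one_le {k : ℕ} (hk : 1 ≤ k) (d : ℕ) (n : ZMod (p ^ 1)) : P p 1 k (d + 1) n ≤ k * p ^ d := by
  have h1 : ∀ (q : ℕ) (_ : q = p) (m : ZMod q), N q k (d + 1) m ≤ k * p ^ d := by
    intro q hq m
    subst hq
    exact N_field_le hk d m
  have h2 := h1 (p ^ 1) (pow_one p) n
  rw [N_eq_add] at h2
  omega

lemma P_le' {k : ℕ} (hk : 1 ≤ k) (hpk : ¬ p ∣ k) (d γ : ℕ) (hγ : 1 ≤ γ) (n : ZMod (p ^ γ)) :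
    P p γ k (d + 1) n ≤ k * (p ^ γ) ^ d := by
  have hp : p.Prime := Fact.out
  have h1 := P_le (p := p) (k := k) (d := d + 1) hpk hγ n
  rw [Nat.add_sub_cancel] at h1
  refine h1.trans ((Nat.mul_le_mul_right _ (P_one_le hk d _)).trans (le_of_eq ?_))
  have h2 : p ^ γ = p * p ^ (γ - 1) := by rw [← pow_succ']; congr 1; omega
  rw [h2, mul_pow, mul_assoc]

/-- the number of the `k`-th roots of `n` modulo `p ^ m` -/
lemma root_bound {k : ℕ} (hk : 1 ≤ k) (hpk : ¬ p ∣ k) (m : ℕ) : 1 ≤ m → ∀ (n : ℤ) (s : ℕ), s + 1 ≤ m →
    (¬ (p : ℤ) ^ (s + 1) ∣ n ∨ s + 1 = m) → N (p ^ m) k 1 (n : ZMod (p ^ m)) ≤ k * p ^ (s - s / k) := by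
  classical
  have hp : p.Prime := Fact.out
  induction m using Nat.strong_induction_on with
  | _ m ih =>
    intro hm n s hs hc
    have hge : k ≤ k * p ^ (s - s / k) := Nat.le_mul_of_pos_right _ (pow_pos hp.pos _)
    have hP0 : P p m k 1 (n : ZMod (p ^ m)) ≤ k := by
      have := P_le' hk hpk 0 m hm (n : ZMod (p ^ m))
      simpa using this
    rw [N_eq_add]
    by_cases hpn : (p : ℤ) ∣ n
    · -- no primitive roots
      have hP : P p m k 1 (n : ZMod (p ^ m)) = 0 := by
        by_contra hne
        rw [P_eq] at hne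
        obtain ⟨x, hx⟩ := card_pos.mp (Nat.pos_of_ne_zero hne)
        rw [mem_filter] at hx
        obtain ⟨_, hx1, i, hi⟩ := hx
        have hi0 : i = 0 := Subsingleton.elim _ _
        subst hi0
        have h1 : IsUnit (x 0) := (isUnit_iff hp hm (x 0)).2 hi
        have h2 : IsUnit ((n : ZMod (p ^ m))) := by
          rw [← hx1, Fin.sum_univ_one]
          exact h1.pow k
        refine (isUnit_iff hp hm _).1 h2 ?_
        obtain ⟨c, rfl⟩ := hpn
        exact ⟨(c : ZMod (p ^ m)), by push_cast; ring⟩
      rw [hP, add_zero]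
      by_cases hZ : Z p m k 1 (n : ZMod (p ^ m)) = 0
      · rw [hZ]; exact Nat.zero_le _
      obtain ⟨m', hm'⟩ := Z_ne_zero hZ
      have hdiv : (p : ℤ) ^ m ∣ n - (p : ℤ) ^ k * m' := by
        have h1 := (ZMod.intCast_eq_intCast_iff_dvd_sub ((p : ℤ) ^ k * m') n (p ^ m)).1 hm'.symm
        exact_mod_cast h1
      rcases Nat.lt_or_ge m k with hlt | hge'
      · -- `m < k`
        have h1 : (p : ℤ) ^ m ∣ n := by
          have h2 : (p : ℤ) ^ m ∣ (p : ℤ) ^ k * m' := (pow_dvd_pow _ hlt.le).mul_right _
          have h3 := dvd_add hdiv h2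
          rwa [sub_add_cancel] at h3
        have h4 : s + 1 = m := by
          rcases hc with hc | hc
          · exact absurd ((pow_dvd_pow _ hs).trans h1) hc
          · exact hc
        have h5 := Z_le (p := p) hm k 1 (n : ZMod (p ^ m))
        rw [pow_one, pow_one] at h5
        have h6 : s / k = 0 := Nat.div_eq_of_lt (by omega)
        have h7 : p ^ m = p ^ s * p := by rw [← h4, pow_succ]
        have h8 := Nat.le_of_mul_le_mul_right (h5.trans (le_of_eq h7)) hp.pos
        rw [h6, Nat.sub_zero]
        exact h8.trans (Nat.le_mul_of_pos_left _ (by omega))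
      · have h1 := Z_rec (p := p) hk hge' 1 m'
        rw [← hm', pow_one, pow_one] at h1
        have hk1 : p ^ k = p ^ (k - 1) * p := by rw [← pow_succ]; congr 1; omega
        have hpkn : (p : ℤ) ^ k ∣ n := by
          have h2 : (p : ℤ) ^ k ∣ (p : ℤ) ^ k * m' := dvd_mul_right _ _
          have h3 := dvd_add ((pow_dvd_pow _ hge').trans hdiv) h2
          rwa [sub_add_cancel] at h3
        have hsk : k ≤ s + 1 := by
          by_contra hcon
          push Not at hcon
          rcases hc with hc | hc
          · exact hc ((pow_dvd_pow _ hcon.le).trans hpkn)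
          · omega
        rcases Nat.eq_or_lt_of_le hge' with heq | hgt
        · -- `m = k`
          have h2 : N (p ^ (m - k)) k 1 (m' : ZMod (p ^ (m - k))) = 1 := by
            have : ∀ (e : ℕ) (_ : e = 0) (t : ZMod (p ^ e)), N (p ^ e) k 1 t = 1 := by
              intro e he t
              subst he
              exact N_zero_pow k 1 t
            exact this _ (by omega) _
          rw [h2, mul_one, hk1] at h1
          have h3 := Nat.eq_of_mul_eq_mul_right hp.pos h1
          rw [h3]
          have h4 : s / k = 0 := Nat.div_eq_of_lt (by omega)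
          have h5 : s = k - 1 := by omega
          rw [h4, Nat.sub_zero, ← h5]
          exact Nat.le_mul_of_pos_left _ (by omega)
        · -- `m > k`
          have hks : k ≤ s := by
            by_contra hcon
            push Not at hcon
            have h2 : s + 1 = k := by omega
            rcases hc with hc | hc
            · exact hc (h2 ▸ hpkn)
            · omega
          have h2 := ih (m - k) (by omega) (by omega) m' (s - k) (by omega) (by
            rcases hc with hc | hc
            · left
              intro h3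
              apply hc
              have h4 : (p : ℤ) ^ (s + 1) ∣ (p : ℤ) ^ k * m' := by
                have h5 : (p : ℤ) ^ (s + 1) = (p : ℤ) ^ k * (p : ℤ) ^ (s - k + 1) := by
                  rw [← pow_add]; congr 1; omega
                rw [h5]
                exact mul_dvd_mul_left _ h3
              have h5 := dvd_add ((pow_dvd_pow _ hs).trans hdiv) h4
              rwa [sub_add_cancel] at h5
            · right; omega)
          have h3 : Z p m k 1 (n : ZMod (p ^ m)) * p ≤ (k * p ^ (s - s / k)) * p := by
            rw [h1]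
            refine (Nat.mul_le_mul_left _ h2).trans (le_of_eq ?_)
            have h4 : s / k = (s - k) / k + 1 := Nat.div_eq_sub_div (by omega) hks
            have h5 : (s - k) / k ≤ s - k := Nat.div_le_self _ _
            have h6 : p ^ (s - s / k) * p = p ^ k * p ^ (s - k - (s - k) / k) := by
              rw [← pow_succ, ← pow_add]
              congr 1
              omega
            rw [mul_assoc k, h6]
            ring
          exact Nat.le_of_mul_le_mul_right h3 hp.pos
    · -- `p ∤ n`
      have hZ : Z p m k 1 (n : ZMod (p ^ m)) = 0 := by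
        by_contra hne
        obtain ⟨m', hm'⟩ := Z_ne_zero hne
        have hdiv : (p : ℤ) ^ m ∣ n - (p : ℤ) ^ k * m' := by
          have h1 := (ZMod.intCast_eq_intCast_iff_dvd_sub ((p : ℤ) ^ k * m') n (p ^ m)).1 hm'.symm
          exact_mod_cast h1
        apply hpn
        have h2 : (p : ℤ) ∣ (p : ℤ) ^ k * m' := (dvd_pow_self _ (by omega)).mul_right _
        have h3 := dvd_add ((dvd_pow_self (p : ℤ) (by omega : m ≠ 0)).trans hdiv) h2
        rwa [sub_add_cancel] at h3
      rw [hZ, zero_add]
      exact hP0.trans hge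

end Pool.Agent.V5helper46.RC
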