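import Pool.Agent.V5helper50.RC.Stm

/-!
# Project RC: upper bounds for the number of the solutions of congruences
-/

set_option autoImplicit false

open Finset

namespace Pool.Agent.V5helper46.RC

open Pool.Agent.V5helper50.RS (M)
open Pool.Agent.V5helper16.CT (N N_mul N_one N_eq N_le P_le_crude Bd_large sqrt_cube)

lemma up_moduli {k d : ℕ} (a : ℕ → ℝ)
    (H : ∀ p : ℕ, p.Prime → ∀ (γ : ℕ) (n : ZMod (p ^ γ)),
      (N (p ^ γ) k d n : ℝ) ≤ Real.exp (a p) * ((p : ℝ) ^ γ) ^ (d - 1)) (q : ℕ) (hq : 1 ≤ q) :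
    ∀ n : ZMod q, (N q k d n : ℝ) ≤ Real.exp (∑ p ∈ q.primeFactors, a p) * (q : ℝ) ^ (d - 1) := by
  classical
  induction q using Nat.recOnPosPrimePosCoprime with
  | prime_pow p γ hp hγ =>
    intro n
    rw [Nat.primeFactors_prime_pow hγ.ne' hp, sum_singleton]
    push_cast
    exact H p hp γ n
  | zero => omega
  | one =>
    intro n
    rw [N_one]
    simp
  | coprime x y hx hy hxy ihx ihy =>
    intro n
    rw [N_mul hxy]
    have h2 := ihx (by omega) (ZMod.chineseRemainder hxy n).1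
    have h4 := ihy (by omega) (ZMod.chineseRemainder hxy n).2
    rw [Nat.Coprime.primeFactors_mul hxy, sum_union (Nat.Coprime.disjoint_primeFactors hxy)]
    push_cast
    rw [Real.exp_add, mul_pow]
    calc _ ≤ (Real.exp (∑ p ∈ x.primeFactors, a p) * (x : ℝ) ^ (d - 1)) *
            (Real.exp (∑ p ∈ y.primeFactors, a p) * (y : ℝ) ^ (d - 1)) :=
              mul_le_mul h2 h4 (by positivity) (by positivity)
        _ = _ := by ring

/-- the upper bound for all moduli, `d ≥ k + 2` -/
theorem upper {k d : ℕ} (hk : 3 ≤ k) (hd : k + 2 ≤ d) : ∃ C : ℝ, 1 ≤ C ∧ ∀ q : ℕ, 1 ≤ q →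
    ∀ n : ZMod q, (N q k d n : ℝ) ≤ C * (q : ℝ) ^ (d - 1) := by
  classical
  have hex : ∀ p : ℕ, ∃ b : ℝ, 0 ≤ b ∧ (p.Prime → ∀ (γ : ℕ) (n : ZMod (p ^ γ)),
      (N (p ^ γ) k d n : ℝ) ≤ Real.exp b * ((p : ℝ) ^ γ) ^ (d - 1)) := by
    intro p
    by_cases hp : p.Prime
    · have : Fact p.Prime := ⟨hp⟩
      have hp2 : (2 : ℝ) ≤ p := by exact_mod_cast hp.two_le
      set v := padicValNat p k with hv
      set B : ℝ := (p : ℝ) ^ (2 * v + 1) with hB
      have hB1 : 1 ≤ B := one_le_pow₀ (by linarith)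
      refine ⟨Real.log (2 * B), Real.log_nonneg (by linarith), fun _ γ n => ?_⟩
      rw [Real.exp_log (by linarith)]
      apply N_le (by omega) hd (B := B) (by linarith)
      · have h4 : (4 : ℝ) ≤ (p : ℝ) ^ 2 := by nlinarith
        have : 2 * B / (p : ℝ) ^ 2 ≤ 2 * B / 4 :=
          div_le_div_of_nonneg_left (by linarith) (by norm_num) h4
        linarith
      · intro γ n _
        have h5 := P_le_crude (p := p) (v := v) (k := k) (d := d) (by omega)
          (pow_succ_padicValNat_not_dvd (by omega : k ≠ 0)) γ n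
        rw [hB]
        exact_mod_cast h5
    · exact ⟨0, le_rfl, fun h => absurd h hp⟩
  choose b hb0 hb using hex
  set K : ℝ := (k : ℝ) ^ d + 2 with hK
  have hK0 : 0 < K := by positivity
  obtain ⟨P0, hP0⟩ := exists_nat_ge ((2 * K) ^ 2 + k + 1)
  set a : ℕ → ℝ := fun p => 2 * (K / √(p : ℝ) ^ 3) + (if p < P0 then b p else 0) with ha
  have ha0 : ∀ p, 0 ≤ a p := by
    intro p
    have h1 : 0 ≤ 2 * (K / √(p : ℝ) ^ 3) := by positivity
    have h2 : 0 ≤ (if p < P0 then b p else 0) := by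
      split_ifs
      · exact hb0 p
      · exact le_rfl
    exact add_nonneg h1 h2
  have hs : Summable a := by
    apply Summable.add
    · have h1 : Summable (fun n : ℕ => 1 / (n : ℝ) ^ ((3 : ℝ) / 2)) :=
        Real.summable_one_div_nat_rpow.mpr (by norm_num)
      have h2 := h1.mul_left (2 * K)
      refine h2.congr (fun n => ?_)
      rw [sqrt_cube]
      ring
    · apply summable_of_hasFiniteSupport
      apply (Set.finite_Iio P0).subset
      intro n hn
      rw [Function.mem_support] at hn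
      rw [Set.mem_Iio]
      by_contra hcon
      exact hn (if_neg hcon)
  have hB : ∀ p : ℕ, p.Prime → ∀ (γ : ℕ) (n : ZMod (p ^ γ)),
      (N (p ^ γ) k d n : ℝ) ≤ Real.exp (a p) * ((p : ℝ) ^ γ) ^ (d - 1) := by
    intro p hp γ n
    have : Fact p.Prime := ⟨hp⟩
    have hQ : (0 : ℝ) ≤ ((p : ℝ) ^ γ) ^ (d - 1) := by positivity
    by_cases hlt : p < P0
    · refine (hb p hp γ n).trans (mul_le_mul_of_nonneg_right ?_ hQ)
      apply Real.exp_le_exp.mpr
      simp only [ha, if_pos hlt]
      have h1 : 0 ≤ 2 * (K / √(p : ℝ) ^ 3) := by positivity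
      linarith
    · have h1 : (P0 : ℝ) ≤ p := by exact_mod_cast not_lt.mp hlt
      have h2 : k < p := by
        have : (k : ℝ) < p := by nlinarith [sq_nonneg (2 * K)]
        exact_mod_cast this
      have h3 : 2 * K ≤ √(p : ℝ) := by
        apply Real.le_sqrt_of_sq_le
        have : (0 : ℝ) ≤ k := by positivity
        linarith
      have hp1 : (1 : ℝ) ≤ p := by exact_mod_cast hp.one_lt.le
      have h4 : 1 ≤ √(p : ℝ) := Real.one_le_sqrt.mpr hp1
      have h5 : K / √(p : ℝ) ^ 3 ≤ 1 / 2 := by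
        rw [div_le_div_iff₀ (by positivity) (by norm_num)]
        have h6 : √(p : ℝ) ≤ √(p : ℝ) ^ 3 := by
          calc √(p : ℝ) = √(p : ℝ) ^ 1 := (pow_one _).symm
            _ ≤ _ := pow_le_pow_right₀ h4 (by norm_num)
        linarith
      have h7 : a p = 2 * (K / √(p : ℝ) ^ 3) := by
        simp only [ha, if_neg hlt, add_zero]
      rw [h7]
      rcases Bd_large (p := p) hk hd h2 h5 γ n with h8 | h8
      · rw [h8, Nat.cast_zero]
        positivity
      · exact h8.2
  refine ⟨Real.exp (∑' p, a p), Real.one_le_exp (tsum_nonneg ha0), ?_⟩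
  intro q hq n
  have hle : ∑ p ∈ q.primeFactors, a p ≤ ∑' p, a p := hs.sum_le_tsum _ (fun p _ => ha0 p)
  refine (up_moduli a hB q hq n).trans (mul_le_mul_of_nonneg_right ?_ (by positivity))
  exact Real.exp_le_exp.mpr hle

/-- `M` in terms of `ZMod` -/
lemma M_eq_N (k q d u : ℕ) (hq : 1 ≤ q) : M k q d u = N q k d (u : ZMod q) := by
  classical
  have : NeZero q := ⟨by omega⟩
  rw [N_eq]
  unfold Pool.Agent.V5helper50.RS.M
  refine Finset.card_bij' (fun x _ i => ((x i : ℕ) : ZMod q)) (fun y _ i => (y i).val) ?_ ?_ ?_ ?_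
  · intro x hx
    rw [mem_filter] at hx ⊢
    refine ⟨mem_univ _, ?_⟩
    have h := (ZMod.natCast_eq_natCast_iff' (∑ i, x i ^ k) u q).2 hx.2
    rw [← h, Nat.cast_sum]
    exact sum_congr rfl fun i _ => (Nat.cast_pow _ _).symm
  · intro y hy
    rw [mem_filter] at hy ⊢
    refine ⟨?_, ?_⟩
    · rw [Fintype.mem_piFinset]
      intro i
      exact mem_range.2 (ZMod.val_lt _)
    · refine (ZMod.natCast_eq_natCast_iff' _ u q).1 ?_
      rw [← hy.2, Nat.cast_sum]
      refine sum_congr rfl fun i _ => ?_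
      rw [Nat.cast_pow, ZMod.natCast_zmod_val]
  · intro x hx
    rw [mem_filter, Fintype.mem_piFinset] at hx
    funext i
    exact ZMod.val_cast_of_lt (mem_range.1 (hx.1 i))
  · intro y hy
    funext i
    exact ZMod.natCast_zmod_val _

/-- splitting off one coordinate -/
lemma M_succ (k q d u : ℕ) : M k q (d + 1) u =
    ∑ y ∈ Fintype.piFinset (fun _ : Fin d => range q),
      ((range q).filter (fun r => (∑ l, y l ^ k + r ^ k) % q = u % q)).card := by
  classical
  unfold Pool.Agent.V5helper50.RS.M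
  rw [← card_sigma]
  symm
  refine Finset.card_bij (fun x _ => (Fin.snoc (α := fun _ => ℕ) x.1 x.2 : Fin (d + 1) → ℕ)) ?_ ?_ ?_
  · rintro ⟨y, r⟩ h
    rw [mem_sigma, Fintype.mem_piFinset, mem_filter] at h
    rw [mem_filter, Fintype.mem_piFinset]
    refine ⟨fun i => ?_, ?_⟩
    · refine Fin.lastCases ?_ (fun j => ?_) i
      · rw [Fin.snoc_last]; exact h.2.1
      · rw [Fin.snoc_castSucc]; exact h.1 j
    · rw [Fin.sum_univ_castSucc]
      simp only [Fin.snoc_castSucc, Fin.snoc_last]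
      exact h.2.2
  · rintro ⟨y, r⟩ _ ⟨y', r'⟩ _ h
    have h1 : y = y' := by
      funext j
      have := congrFun h (Fin.castSucc j)
      simpa [Fin.snoc_castSucc] using this
    have h2 : r = r' := by
      have := congrFun h (Fin.last d)
      simpa [Fin.snoc_last] using this
    rw [h1, h2]
  · intro x hx
    rw [mem_filter, Fintype.mem_piFinset] at hx
    refine ⟨⟨Fin.init x, x (Fin.last d)⟩, ?_, ?_⟩
    · rw [mem_sigma, Fintype.mem_piFinset, mem_filter]
      refine ⟨fun j => hx.1 _, hx.1 _, ?_⟩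
      have := hx.2
      rw [Fin.sum_univ_castSucc] at this
      exact this
    · exact Fin.snoc_init_self x

open Pool.Agent.V5helper50.RC (S G W)

/-- for equal moduli the second summand is at most the first one -/
lemma W_self_le {k q d u : ℕ} (hd : 1 ≤ d) : W k q q d u ≤ 2 * M k q d u := by
  classical
  obtain ⟨d', rfl⟩ : ∃ d', d = d' + 1 := ⟨d - 1, by omega⟩
  rw [M_succ, mul_sum]
  unfold Pool.Agent.V5helper50.RC.W
  rw [Nat.add_sub_cancel]
  refine sum_le_sum fun y _ => ?_
  unfold Pool.Agent.V5helper50.RC.G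
  rw [two_mul]
  refine Nat.add_le_add_left (Finset.sup_le fun z hz => ?_) _
  rw [mem_filter] at hz
  unfold Pool.Agent.V5helper50.RC.S
  refine card_le_card fun r hr => ?_
  rw [mem_filter] at hr ⊢
  refine ⟨hr.1, ?_⟩
  rw [← hz.2]
  exact Nat.ModEq.add_left _ hr.2

end Pool.Agent.V5helper46.RC
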